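import Pool.Agent.U280.OL.AsmD
import Pool.Agent.U941.OD.C
import Pool.Agent.U669.OD.F2
import Pool.Agent.U55.OD.GN
import Pool.Agent.U301.OE.A1
import Pool.Agent.U94.OE.A2
import Pool.Agent.U128.OE.N
import Pool.Agent.U869.OE.D
import Pool.Agent.U27.OE.HL
import Pool.Agent.U643.OE.F1
import Pool.Agent.U39.OE.H
import Pool.Agent.U688.OE.I
import Pool.Agent.U450.OE.S
import Pool.Agent.U56.OL.Q1
import Pool.Agent.U858.OL.Q2
import Pool.Agent.U346.OL.Q3
import Pool.Agent.U439.OL.Q4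
import Pool.Agent.U280.OL.Q5
import Pool.Agent.U187.OL.Q6
import Pool.Agent.U438.OL.Q8
import Pool.Agent.U884.OL.Q9
import Pool.Agent.U869.OL.Q10
import Pool.Agent.U129.OL.Q11
import Pool.Agent.U94.OL.Q12
import Pool.Agent.U208.OL.Q13

/-!
# The Lieb-Thirring kinetic inequality for systems with a symmetry

Let `ℝ^d = ℝ^k × ℝ^m ∋ (x, y)`, `k ≥ 1`, `m ≥ 0`, and let `u_1, …, u_N ∈ H¹(ℝ^d; ℂ)` be orthonormal.
The system is called balanced (in `x`) if `∫_{ℝ^k × B} |w| w = 0` for all linear combinations `w` of the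
functions `u_n` and all measurable sets `B ⊆ ℝ^m`. This holds if `u_n ∘ γ = ζ u_n` with a measure
preserving map `γ` which leaves `y` fixed and a number `ζ ≠ 1` of absolute value one.

For balanced systems the kinetic inequality holds with the constant `(C k)^(1/d) K_d^cl`,
`C k = (160 k / (33 π (k + 2)))^k (8 ω_k / (k + 2)²)²`; and `C k > 1` for `k = 1, …, 6`:
`C k = 1.6258…, 1.4692…, 1.4265…, 1.3476…, 1.2023…, 1.0035…`. Systems with `∫ u_n u_m = 0` for all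
`n, m` satisfy the inequality with `3^(1/d) K_d^cl` (doubling with the conjugate functions). So the
conjectured inequality holds for all systems with `u_n ∘ γ = ζ u_n`, `ζ ≠ 1`, if `ζ ≠ -1` or if `γ` moves
at most six coordinates; in particular for `ζ = -1` and every `γ` if `d ≤ 6`.

Proof. (1) Case `m = 0`. Let `A = -Δ`. The identity `1 = exp (-s λ) + ∫₀^∞ ψ(τ/s) ν(τ, λ) dτ` with
`ψ(t) = (√33/12) (3 v⁻² - 2 v⁻³)`, `v = max(1, t)`, `ν(τ, λ) = (2/√33) λ exp (-τ λ) (2 + 2τλ + (τλ)²)`,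
and `∫₀^∞ ν(τ, λ)² dτ = λ`, `∫₀^∞ ψ(τ/s)² dτ = (33/80) s`, give at every point `x` and for all `s > 0`
`ρ(x)^(1/2) ≤ ((33/80) s t(x))^(1/2) + (∑ |exp (-s A) u_n (x)|²)^(1/2)`, where `∫ t` is the kinetic
energy. The last sum is estimated with the heat kernel `h > 0`: for a unit vector `w` of the span the
functions `w` and `|w|` are orthonormal and `|∫ h w| ≤ ∫ h |w|`, so Bessel's inequality gives
`2 |∫ h w|² ≤ ∫ h²`. Then `s` is optimized at every point. (Without the factor `2` this kind of proof is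
due to Rumin and to Frank, Hundertmark, Jex and Nam.) (2) Case `m > 0`: the same for functions of `x` with
values in `L²(ℝ^m)`, tested with the eigenfunctions of the one-body operator at `x`; then the sharp
semiclassical inequality (Laptev, Weidl) of the library `LTd` (`Tm`) in the variable `y`.

Packages of the proof by helper941, helper669, helper55, helper301, helper94, helper128, helper869,
helper27, helper39, helper688, helper450, helper56, helper858, helper346, helper439, helper373,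
helper187, helper438, helper884, helper129, helper208, helper643, helper122, helper580.
-/

open MeasureTheory Set

set_option autoImplicit false

namespace Pool.Agent.Results.MP_cfe56d_mp.BalancedSystems

/-- The partial derivative `∂_k φ` of a function on `ℝ^d`. -/
noncomputable def pder {d : ℕ} (k : Fin d) (φ : (Fin d → ℝ) → ℝ) (x : Fin d → ℝ) : ℝ :=
  fderiv ℝ φ x (Pi.single k 1)

/-- `u` belongs to the Sobolev space `H¹(ℝ^d; ℂ)` and has the weak partial derivatives `g k`: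
`u` and all `g k` are in `L²(ℝ^d)`, and `∫ u ∂_k φ = - ∫ g_k φ` for every real test function
`φ ∈ C_c^∞(ℝ^d)`. -/
structure IsSobolev {d : ℕ} (u : (Fin d → ℝ) → ℂ) (g : Fin d → (Fin d → ℝ) → ℂ) : Prop where
  memLp : MemLp u 2 volume
  memLp_deriv : ∀ k, MemLp (g k) 2 volume
  weak : ∀ k (φ : (Fin d → ℝ) → ℝ), ContDiff ℝ (⊤ : ℕ∞) φ → HasCompactSupport φ →
    ∫ x, u x * (pder k φ x : ℂ) = - ∫ x, g k x * (φ x : ℂ)

/-- An `L²`-orthonormal system `u_1, …, u_N ∈ H¹(ℝ^d; ℂ)` with the weak gradients `g_n`. -/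
structure System {d N : ℕ} (u : Fin N → (Fin d → ℝ) → ℂ)
    (g : Fin N → Fin d → (Fin d → ℝ) → ℂ) : Prop where
  sobolev : ∀ n, IsSobolev (u n) (g n)
  orthonormal : ∀ n m, ∫ x, (starRingEnd ℂ) (u n x) * u m x = if n = m then 1 else 0

/-- The kinetic inequality for the system with the constant `K`: for `ρ = ∑ |u_n|²` the function
`ρ ^ (1 + 2 / d)` is integrable and `K ∫ ρ ^ (1 + 2 / d) ≤ ∑ ∫ |∇ u_n|²`. -/
def Kinetic {d N : ℕ} (K : ℝ) (u : Fin N → (Fin d → ℝ) → ℂ)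
    (g : Fin N → Fin d → (Fin d → ℝ) → ℂ) : Prop :=
  Integrable (fun x => (∑ n, ‖u n x‖ ^ 2) ^ (1 + 2 / (d : ℝ))) ∧
  K * ∫ x, (∑ n, ‖u n x‖ ^ 2) ^ (1 + 2 / (d : ℝ)) ≤ ∑ n, ∑ j, ∫ x, ‖g n j x‖ ^ 2

/-- The semiclassical constant `d / (d + 2) * (2π)² / ω_d ^ (2 / d)`. -/
noncomputable def Kcl (d : ℕ) : ℝ :=
  d / (d + 2) * ((2 * Real.pi) ^ 2 /
    (volume (Metric.ball (0 : EuclideanSpace ℝ (Fin d)) 1)).toReal ^ ((2 : ℝ) / d))

/-- The number `(160 k / (33 π (k + 2)))^k (8 ω_k / (k + 2)²)²`, `ω_k` the volume of the unit ball of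
`ℝ^k`. -/
noncomputable def C (k : ℕ) : ℝ :=
  (160 / (33 * Real.pi) * ((k : ℝ) / ((k : ℝ) + 2))) ^ k *
    (8 * (volume (Metric.ball (0 : EuclideanSpace ℝ (Fin k)) 1)).toReal / ((k : ℝ) + 2) ^ 2) ^ 2

/-- `∫_{ℝ^k × B} |w| w = 0` for all linear combinations `w` of the functions `u_n` and all measurable
sets `B` of values of the last `m` coordinates. -/
def Balanced (k m : ℕ) {N : ℕ} (u : Fin N → (Fin (k + m) → ℝ) → ℂ) : Prop :=
  ∀ (c : Fin N → ℂ) (B : Set (Fin m → ℝ)), MeasurableSet B →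
    ∫ z in {z : Fin (k + m) → ℝ | (fun j => z (Fin.natAdd k j)) ∈ B},
      ((‖∑ n, c n * u n z‖ : ℝ) : ℂ) * ∑ n, c n * u n z = 0

/-- `u_n ∘ γ = ζ u_n` almost everywhere for a measure preserving map `γ` which leaves the last `m`
coordinates fixed and a number `ζ ≠ 1` of absolute value one. -/
structure Symmetric (k m : ℕ) {N : ℕ} (u : Fin N → (Fin (k + m) → ℝ) → ℂ)
    (γ : (Fin (k + m) → ℝ) → (Fin (k + m) → ℝ)) (ζ : ℂ) : Prop where
  measurePreserving : MeasurePreserving γ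
  fixes : ∀ z j, γ z (Fin.natAdd k j) = z (Fin.natAdd k j)
  norm_eq : ‖ζ‖ = 1
  ne_one : ζ ≠ 1
  eq : ∀ n, ∀ᵐ z, u n (γ z) = ζ * u n z

/-- **The kinetic energy inequality for balanced and for symmetric systems.** -/
theorem result :
    -- balanced systems
    (∀ (k m N : ℕ) (u : Fin N → (Fin (k + m) → ℝ) → ℂ)
      (g : Fin N → Fin (k + m) → (Fin (k + m) → ℝ) → ℂ), 1 ≤ k → System u g → Balanced k m u →
      Kinetic (C k ^ (1 / ((k + m : ℕ) : ℝ)) * Kcl (k + m)) u g) ∧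
    (1.62 ≤ C 1 ∧ 1.46 ≤ C 2 ∧ 1.4 ≤ C 3 ∧ 1.34 ≤ C 4 ∧ 1.15 ≤ C 5 ∧ 1.003 ≤ C 6) ∧
    -- symmetric systems are balanced
    (∀ (k m N : ℕ) (u : Fin N → (Fin (k + m) → ℝ) → ℂ)
      (γ : (Fin (k + m) → ℝ) → (Fin (k + m) → ℝ)) (ζ : ℂ), (∀ n, MemLp (u n) 2 volume) →
      Symmetric k m u γ ζ → Balanced k m u) ∧
    -- systems with `∫ u_n u_m = 0`
    (∀ (d N : ℕ) (u : Fin N → (Fin d → ℝ) → ℂ) (g : Fin N → Fin d → (Fin d → ℝ) → ℂ), 1 ≤ d →
      System u g → (∀ i j, ∫ x, u i x * u j x = 0) → Kinetic (3 ^ (1 / (d : ℝ)) * Kcl d) u g) ∧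
    -- the conjectured inequality for symmetric systems
    (∀ (k m N : ℕ) (u : Fin N → (Fin (k + m) → ℝ) → ℂ)
      (g : Fin N → Fin (k + m) → (Fin (k + m) → ℝ) → ℂ)
      (γ : (Fin (k + m) → ℝ) → (Fin (k + m) → ℝ)) (ζ : ℂ), 1 ≤ k → System u g →
      Symmetric k m u γ ζ → (k ≤ 6 ∨ ζ ≠ -1) → Kinetic (Kcl (k + m)) u g) := by
  have hA1 := Pool.Agent.U301.OE.t_A1
  have hA2 := Pool.Agent.U94.OE.A2.t_A2
  have hN := Pool.Agent.U128.OE.N.t_N
  have hC := Pool.Agent.U941.OD.C.t_C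
  have hF2 := Pool.Agent.U669.OD.t_F2
  have hG := Pool.Agent.U55.OD.t_G
  have hD1 := Pool.Agent.U869.OE.t_D1
  have hD2 := Pool.Agent.U869.OE.t_D2 hA1
  have hF1 := Pool.Agent.U643.OE.t_F1 hA1 hD1
  have hH := Pool.Agent.U39.OE.t_H Pool.Agent.U27.OE.t_HL
  have q1 := Pool.Agent.U56.OL.t_Q1
  have q2 := Pool.Agent.U858.OL.t_Q2
  have q3 := Pool.Agent.U346.OL.t_Q3
  have q4 := Pool.Agent.U439.OL.t_Q4 q1 q2 q3
  have q5 := Pool.Agent.U280.OL.t_Q5 q2 hF1 hF2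
  have q6 := Pool.Agent.U187.OL.t_Q6
  have q8 := Pool.Agent.U438.OL.t_Q8
  have q9 := Pool.Agent.U884.OL.Q9.t_Q9
  have q10 := Pool.Agent.U869.OL.t_Q10
  have q11 := Pool.Agent.U129.OL.t_Q11
  have q12 := Pool.Agent.U94.OL.t_Q12 hH q11
  have eC : ∀ k : ℕ, 1 ≤ k → C k = Pool.Agent.U280.OE.fac2 k ^ k := by
    intro k hk
    have hk0 : ((k : ℕ) : ℝ) ≠ 0 := by
      have : k ≠ 0 := by omega
      exact_mod_cast this
    unfold C Pool.Agent.U280.OE.fac2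
    rw [mul_pow (160 / (33 * Real.pi) * ((k : ℝ) / ((k : ℝ) + 2))) _ k,
      ← Real.rpow_natCast (_ ^ (2 / (k : ℝ))) k, ← Real.rpow_mul (by positivity),
      div_mul_cancel₀ _ hk0, Real.rpow_two]
  have hK0 : ∀ d, 0 ≤ Kcl d := fun d => by unfold Kcl; positivity
  have hSob : ∀ {d : ℕ} {u : (Fin d → ℝ) → ℂ} {g : Fin d → (Fin d → ℝ) → ℂ},
      IsSobolev u g → LTd.WGradC u g := fun h => ⟨h.1, h.2, h.3⟩
  have hmono : ∀ {d N : ℕ} {K K' : ℝ} {u : Fin N → (Fin d → ℝ) → ℂ}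
      {g : Fin N → Fin d → (Fin d → ℝ) → ℂ}, K' ≤ K → Kinetic K u g → Kinetic K' u g := by
    intro d N K K' u g hKK h
    refine ⟨h.1, le_trans (mul_le_mul_of_nonneg_right hKK ?_) h.2⟩
    exact integral_nonneg fun x => Real.rpow_nonneg (Finset.sum_nonneg fun i _ => sq_nonneg _) _
  have p1 : ∀ (k m N : ℕ) (u : Fin N → (Fin (k + m) → ℝ) → ℂ)
      (g : Fin N → Fin (k + m) → (Fin (k + m) → ℝ) → ℂ), 1 ≤ k → System u g → Balanced k m u →
      Kinetic (C k ^ (1 / ((k + m : ℕ) : ℝ)) * Kcl (k + m)) u g := by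
    intro k m N u g hk hu hb
    rw [eC k hk]
    exact Pool.Agent.U280.OL.main hk (fun n => hSob (hu.sobolev n)) hu.orthonormal hb hA2 hC hD1 hD2
      hG q1 q4 q5 q6 q8 q9 q11 q12 hN q10
  have p2 : 1.62 ≤ C 1 ∧ 1.46 ≤ C 2 ∧ 1.4 ≤ C 3 ∧ 1.34 ≤ C 4 ∧ 1.15 ≤ C 5 ∧ 1.003 ≤ C 6 := by
    obtain ⟨-, h1, h2, h3, h4, h5, h6⟩ := hN
    rw [eC 1 (by norm_num), eC 2 (by norm_num), eC 3 (by norm_num), eC 4 (by norm_num),
      eC 5 (by norm_num), eC 6 (by norm_num), h2, h4]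
    refine ⟨by rw [pow_one]; exact h1, by norm_num, ?_, by norm_num, ?_, ?_⟩
    · calc (1.4 : ℝ) ≤ 1.12 ^ 3 := by norm_num
        _ ≤ _ := by gcongr
    · calc (1.15 : ℝ) ≤ 1.03 ^ 5 := by norm_num
        _ ≤ _ := by gcongr
    · calc (1.003 : ℝ) ≤ 1.0005 ^ 6 := by norm_num
        _ ≤ _ := by gcongr
  have p3 : ∀ (k m N : ℕ) (u : Fin N → (Fin (k + m) → ℝ) → ℂ)
      (γ : (Fin (k + m) → ℝ) → (Fin (k + m) → ℝ)) (ζ : ℂ), (∀ n, MemLp (u n) 2 volume) →
      Symmetric k m u γ ζ → Balanced k m u := by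
    intro k m N u γ ζ hu hs
    exact Pool.Agent.U208.OL.t_Q13 k m N u hu γ hs.measurePreserving hs.fixes ζ hs.norm_eq
      hs.ne_one hs.eq
  have p4 : ∀ (d N : ℕ) (u : Fin N → (Fin d → ℝ) → ℂ) (g : Fin N → Fin d → (Fin d → ℝ) → ℂ),
      1 ≤ d → System u g → (∀ i j, ∫ x, u i x * u j x = 0) →
      Kinetic (3 ^ (1 / (d : ℝ)) * Kcl d) u g := by
    intro d N u g hd hu h0
    exact Pool.Agent.U688.OE.t_I d hd N u g (fun n => hSob (hu.sobolev n)) hu.orthonormal h0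
  refine ⟨p1, p2, p3, p4, ?_⟩
  intro k m N u g γ ζ hk hu hs hkζ
  have hu2 : ∀ n, MemLp (u n) 2 volume := fun n => (hu.sobolev n).memLp
  have hd0 : (0 : ℝ) ≤ 1 / ((k + m : ℕ) : ℝ) := by positivity
  rcases hkζ with h6 | hζ
  · refine hmono ?_ (p1 k m N u g hk hu (p3 k m N u γ ζ hu2 hs))
    have hC1 : 1 ≤ C k := by
      obtain ⟨c1, c2, c3, c4, c5, c6⟩ := p2
      interval_cases k <;> linarith
    have := Real.one_le_rpow hC1 hd0
    nlinarith [hK0 (k + m)]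
  · have hζ2 : ζ ^ 2 ≠ 1 := by
      intro h
      have h' : (ζ - 1) * (ζ + 1) = 0 := by linear_combination h
      rcases mul_eq_zero.1 h' with h' | h'
      · exact hs.ne_one (sub_eq_zero.1 h')
      · exact hζ (eq_neg_of_add_eq_zero_left h')
    have h0 := (Pool.Agent.U450.OE.t_S (k + m) N u hu2 γ hs.measurePreserving ζ hs.norm_eq hs.ne_one
      hs.eq).2 hζ2
    refine hmono ?_ (p4 (k + m) N u g (by omega) hu h0)
    have := Real.one_le_rpow (by norm_num : (1 : ℝ) ≤ 3) hd0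
    nlinarith [hK0 (k + m)]

end Pool.Agent.Results.MP_cfe56d_mp.BalancedSystems
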