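import Pool.Agent.U281.CP.Top

/-!
# The Lieb-Thirring inequality with the semiclassical constant for all potentials `V(|x|, y)`

Write `ℝ^d = ℝ^k × ℝ^m ∋ (x, y)` with `k ≥ 6` and `m ≥ 0` arbitrary. For ALL orthonormal systems in
`H¹(ℝ^d)` the conjectured inequality with the semiclassical constant holds, if the density `ρ` is
replaced by its mean over the rotations of `x`; in particular it holds as conjectured if `ρ` depends
only on `|x|` and `y`. The dual form is the Lieb-Thirring inequality for the sum of the negative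
eigenvalues of `-Δ - V` with the semiclassical constant `L_{1,d}^cl` for all potentials `V(|x|, y)`,
for instance all radial potentials in dimension `d ≥ 6`, and all potentials on `ℝ^d` which are
invariant under the rotations of six of the variables.

Proof. (1) For systems which fill multiplets (`u = G(|x|, y) P_j(x)`, all spherical harmonics `P_j` of
degree `l` with the same functions `G`) the inequality is the library theorem `CY.final`: logarithmic
variable, sharp one dimensional inequality for matrix valued systems integrated over slices, cells of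
the half line of the angular momenta; see the header of the earlier file on cylindrical shells, now
in `Pool/Agent/U281/CY`.
(2) Let the `u_n` be finite sums of functions `G(|x|, y) P(x)`, `P` a spherical harmonic. With respect
to a basis `P_{l,j}` which is orthonormal on the sphere the form of `-Δ - V` is a direct sum, and its
part in the sector `(l, j)` does not depend on `j` (`forms_ne`, `forms_eq`: polar coordinates and
Green's formula with a radial cut-off). All coefficient functions of degree `l` span a finite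
dimensional space; let `ψ_{l,i}` be the eigenfunctions with negative eigenvalue `λ_{l,i}` there. Since
`∑_n |⟨u_n, ψ_{l,i} P_{l,j}⟩|² ≤ 1`, the energy of the system is at least `∑_l h_l ∑_i λ_{l,i}`, which
is the energy of the system of the full multiplets `ψ_{l,i} P_{l,j}` (`comb`).
(3) Finite sums of harmonics are dense: continuously differentiable functions are limits of
polynomials in `C¹` on compact sets (Landau kernels), and every polynomial is a sum of
`|x|^(2i) y^β P(x)` with harmonic `P` (`approx`, `dec2`). Cut-off near `x = 0` (codimension at least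
3), mollification and Fatou's lemma give all of `H¹`, approximation of `V` in `L^(1+d/2)` gives all
measurable potentials.
(4) Duality with `V = c min(ρ̄, R)^(2/d)` gives the inequality for the mean `ρ̄`.
-/

set_option autoImplicit false

open MeasureTheory

namespace Pool.Agent.Results.MP_cfe56d_mp.CylindricalPotentials

/-- `k`-dimensional Euclidean space -/
abbrev E (k : ℕ) := EuclideanSpace ℝ (Fin k)

/-- The semiclassical constant `K_d^cl = d / (d + 2) * (2π)² / ω_d ^ (2 / d)`, where `ω_d` is the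
volume of the unit ball of `ℝ^d`. -/
noncomputable def Kcl (d : ℕ) : ℝ :=
  d / (d + 2) * ((2 * Real.pi) ^ 2 / (volume (Metric.ball (0 : E d) 1)).toReal ^ (2 / (d : ℝ)))

/-- The semiclassical constant `L_{1,d}^cl = 2 / (d + 2) * ω_d / (2π)^d`. -/
noncomputable def Lcl (d : ℕ) : ℝ :=
  2 / ((d : ℝ) + 2) * ((volume (Metric.ball (0 : E d) 1)).toReal / (2 * Real.pi) ^ d)

/-- `u` belongs to the Sobolev space `H¹(ℝ^d; ℂ)` and has the weak partial derivatives `g j`. -/
structure IsSobolev {d : ℕ} (u : (Fin d → ℝ) → ℂ) (g : Fin d → (Fin d → ℝ) → ℂ) : Prop where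
  memLp : MemLp u 2 volume
  memLp_deriv : ∀ j, MemLp (g j) 2 volume
  weak : ∀ j (φ : (Fin d → ℝ) → ℝ), ContDiff ℝ (⊤ : ℕ∞) φ → HasCompactSupport φ →
    ∫ z, u z * (fderiv ℝ φ z (Pi.single j 1) : ℂ) = - ∫ z, g j z * (φ z : ℂ)

/-- An `L²`-orthonormal system of functions `u n` in `H¹(ℝ^d; ℂ)` with weak derivatives `g n`. -/
structure System {d N : ℕ} (u : Fin N → (Fin d → ℝ) → ℂ)
    (g : Fin N → Fin d → (Fin d → ℝ) → ℂ) : Prop where
  sobolev : ∀ n, IsSobolev (u n) (g n)
  orthonormal : ∀ n n', ∫ z, (starRingEnd ℂ) (u n z) * u n' z = if n = n' then 1 else 0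

/-- The density `ρ = ∑ |u n|²`. -/
noncomputable def density {d N : ℕ} (u : Fin N → (Fin d → ℝ) → ℂ) (z : Fin d → ℝ) : ℝ :=
  ∑ n, ‖u n z‖ ^ 2

/-- The kinetic energy `∑ ∫ |∇u n|²`. -/
noncomputable def kinetic {d N : ℕ} (g : Fin N → Fin d → (Fin d → ℝ) → ℂ) : ℝ :=
  ∑ n, ∑ j, ∫ z, ‖g n j z‖ ^ 2

/-- The first `k` coordinates `x` of a point of `ℝ^(k+m)`. -/
noncomputable def xPart {k m : ℕ} (z : Fin (k + m) → ℝ) : E k :=
  WithLp.toLp 2 fun i => z (Fin.castAdd m i)

/-- The last `m` coordinates `y` of a point of `ℝ^(k+m)`. -/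
def yPart {k m : ℕ} (z : Fin (k + m) → ℝ) : Fin m → ℝ := fun j => z (Fin.natAdd k j)

/-- The point with the coordinates `x` and `y`. -/
def point {k m : ℕ} (x : E k) (y : Fin m → ℝ) : Fin (k + m) → ℝ := Fin.append (fun i => x i) y

/-- The mean of `ρ` over the rotations of `x`: the mean with respect to the surface measure of
`ρ(|x| ω, y)`, `ω` in the unit sphere of `ℝ^k`. -/
noncomputable def sphericalMean {k m : ℕ} (ρ : (Fin (k + m) → ℝ) → ℝ) (z : Fin (k + m) → ℝ) : ℝ :=
  ⨍ ω : Metric.sphere (0 : E k) 1, ρ (point (‖xPart z‖ • (ω : E k)) (yPart z))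
    ∂(volume : Measure (E k)).toSphere

open Pool.Agent.U281.CP in
theorem mean_eq {k m : ℕ} (ρ : (Fin (k + m) → ℝ) → ℝ) (z : Fin (k + m) → ℝ) :
    sphericalMean ρ z = avgm (k := k) ρ z := by
  unfold sphericalMean avgm
  rw [average_eq, smul_eq_mul]
  rfl

theorem Lcl_eq {d : ℕ} (hd : 0 < d) : Pool.Agent.U281.CP.Ly (Kcl d) d = Lcl d := by
  have hd' : (0 : ℝ) < d := by exact_mod_cast hd
  obtain ⟨w, hw⟩ : ∃ w : ℝ, w = (volume (Metric.ball (0 : E d) 1)).toReal := ⟨_, rfl⟩
  have hw0 : 0 < w := by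
    rw [hw]
    exact ENNReal.toReal_pos (Metric.measure_ball_pos _ _ one_pos).ne' measure_ball_lt_top.ne
  have hπ := Real.pi_pos
  unfold Pool.Agent.U281.CP.Ly Kcl Lcl
  rw [← hw]
  congr 1
  have h1 : (d : ℝ) / (((d : ℝ) + 2) * (d / (d + 2) * ((2 * Real.pi) ^ 2 / w ^ (2 / (d : ℝ))))) =
      w ^ (2 / (d : ℝ)) / (2 * Real.pi) ^ 2 := by
    have : 0 < w ^ (2 / (d : ℝ)) := by positivity
    field_simp
  rw [h1, Real.div_rpow (by positivity) (by positivity), ← Real.rpow_mul hw0.le]
  have h2 : 2 / (d : ℝ) * ((d : ℝ) / 2) = 1 := by field_simp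
  rw [h2, Real.rpow_one]
  congr 1
  rw [← Real.rpow_natCast (2 * Real.pi) 2, ← Real.rpow_mul (by positivity),
    ← Real.rpow_natCast (2 * Real.pi) d]
  congr 1
  push_cast
  ring

/-- **The Lieb-Thirring inequality with the semiclassical constant for cylindrically symmetric
potentials and densities.** Let `k ≥ 6`, `m ≥ 0`, `d = k + m`, and let `u_1, …, u_N` be any
orthonormal system in `H¹(ℝ^d)` with density `ρ` and kinetic energy `T`.
(1) `K_d^cl ∫ ρ̄^(1 + 2/d) ≤ T`, where `ρ̄` is the mean of `ρ` over the rotations of `x ∈ ℝ^k`.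
(2) If `ρ` depends only on `|x|` and `y` (almost everywhere), then `K_d^cl ∫ ρ^(1 + 2/d) ≤ T`.
(3) For every measurable `V(|x|, y) ≥ 0` with `∫ V^(1 + d/2) < ∞`:
`T - ∫ V ρ ≥ - L_{1,d}^cl ∫ V^(1 + d/2)`. All integrals exist. -/
theorem result (k m N : ℕ) (hk : 6 ≤ k) (u : Fin N → (Fin (k + m) → ℝ) → ℂ)
    (g : Fin N → Fin (k + m) → (Fin (k + m) → ℝ) → ℂ) (h : System u g) :
    (Integrable (fun z => sphericalMean (density u) z ^ (1 + 2 / ((k + m : ℕ) : ℝ))) ∧
      Kcl (k + m) * ∫ z, sphericalMean (density u) z ^ (1 + 2 / ((k + m : ℕ) : ℝ)) ≤ kinetic g) ∧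
    (∀ R : ℝ × (Fin m → ℝ) → ℝ, (∀ᵐ z, density u z = R (‖xPart z‖, yPart z)) →
      Integrable (fun z => density u z ^ (1 + 2 / ((k + m : ℕ) : ℝ))) ∧
      Kcl (k + m) * ∫ z, density u z ^ (1 + 2 / ((k + m : ℕ) : ℝ)) ≤ kinetic g) ∧
    ∀ V : ℝ × (Fin m → ℝ) → ℝ, Measurable V → (∀ p, 0 ≤ V p) →
      Integrable (fun z : Fin (k + m) → ℝ =>
        V (‖xPart z‖, yPart z) ^ (1 + ((k + m : ℕ) : ℝ) / 2)) →
      Integrable (fun z => V (‖xPart z‖, yPart z) * density u z) ∧
      -(Lcl (k + m) * ∫ z : Fin (k + m) → ℝ,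
        V (‖xPart z‖, yPart z) ^ (1 + ((k + m : ℕ) : ℝ) / 2)) ≤
        kinetic g - ∫ z, V (‖xPart z‖, yPart z) * density u z := by
  have hu : ∀ n, LTd.WGradC (u n) (g n) := fun n =>
    ⟨(h.sobolev n).memLp, (h.sobolev n).memLp_deriv, (h.sobolev n).weak⟩
  have hkin := Pool.Agent.U281.CP.top_kin (m := m) hk u g hu h.orthonormal
  have hmean : ∀ z, sphericalMean (k := k) (density u) z =
      Pool.Agent.U281.CP.avgm (k := k) (fun z => ∑ n, ‖u n z‖ ^ 2) z := fun z => mean_eq _ z
  refine ⟨?_, ?_, ?_⟩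
  · simp only [hmean]
    exact hkin
  · intro R hR
    have h1 : (fun z => ∑ n, ‖u n z‖ ^ 2) =ᵐ[volume] fun z =>
        R (Pool.Agent.U281.CP.ry (Pool.Agent.U281.CP.Sc k m z)) := hR
    have h2 := Pool.Agent.U281.CP.avgm_congr (by omega : 0 < k) h1
    have h3 : (fun z => Pool.Agent.U281.CP.avgm (k := k) (fun z => ∑ n, ‖u n z‖ ^ 2) z ^
        (1 + 2 / ((k + m : ℕ) : ℝ))) =ᵐ[volume]
        fun z => density u z ^ (1 + 2 / ((k + m : ℕ) : ℝ)) := by
      filter_upwards [h1, h2] with z hz1 hz2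
      rw [hz2, Pool.Agent.U281.CP.avgm_cyl (by omega : 0 < k), ← hz1]
      rfl
    exact ⟨(integrable_congr h3).1 hkin.1, by
      rw [← integral_congr_ae h3]
      exact hkin.2⟩
  · intro V hV hV0 hVi
    obtain ⟨h1, h2⟩ := Pool.Agent.U281.CP.top_pot (m := m) hk u g hu h.orthonormal hV hV0 hVi
    refine ⟨h1, ?_⟩
    have h3 : Pool.Agent.U281.CP.Ly (Pool.Agent.R117.RL.Kcl (k + m)) (k + m) = Lcl (k + m) :=
      Lcl_eq (by omega)
    rw [h3] at h2
    have h4 : ∫ z, V (‖xPart z‖, yPart z) * density u z ≤ kinetic g + Lcl (k + m) *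
        ∫ z : Fin (k + m) → ℝ, V (‖xPart z‖, yPart z) ^ (1 + ((k + m : ℕ) : ℝ) / 2) := h2
    linarith

end Pool.Agent.Results.MP_cfe56d_mp.CylindricalPotentials
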