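import Pool.Agent.U327.LT.C9
import Pool.Agent.U327.LT.C11

set_option autoImplicit false

open MeasureTheory

namespace Pool.Agent.Results.MP_cfe56d_mp.OddSystems

/-- The partial derivative `∂_k φ` of a function on `ℝ^d`. -/
noncomputable def pder {d : ℕ} (k : Fin d) (φ : (Fin d → ℝ) → ℝ) (x : Fin d → ℝ) : ℝ :=
  fderiv ℝ φ x (Pi.single k 1)

/-- `u` belongs to the Sobolev space `H¹(ℝ^d; ℂ)` and has the weak partial derivatives `g k`:
`u` and all `g k` are in `L²(ℝ^d)`, and `∫ u ∂_k φ = - ∫ g_k φ` for every real test function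
`φ ∈ C_c^∞(ℝ^d)`. -/
structure IsSobolev {d : ℕ} (u : (Fin d → ℝ) → ℂ) (g : Fin d → (Fin d → ℝ) → ℂ) : Prop where
  memLp : MemLp u 2 volume
  memLp_deriv : ∀ k, MemLp (g k) 2 volume
  weak : ∀ k (φ : (Fin d → ℝ) → ℝ), ContDiff ℝ (⊤ : ℕ∞) φ → HasCompactSupport φ →
    ∫ x, u x * (pder k φ x : ℂ) = - ∫ x, g k x * (φ x : ℂ)

/-- The point `x` with the signs of the coordinates in `S` changed; `flip univ x = - x`. -/
def flip {d : ℕ} (S : Finset (Fin d)) (x : Fin d → ℝ) : Fin d → ℝ :=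
  fun k => if k ∈ S then - x k else x k

/-- The constants `K` admissible in the kinetic energy inequality for the orthonormal systems of
functions which are odd in the coordinates of `S`: for all `N` and all `L²`-orthonormal
`u_1, …, u_N ∈ H¹(ℝ^d; ℂ)` with `u_n (flip S x) = - u_n x` for almost all `x`, the function
`ρ ^ (1 + 2 / d)`, `ρ = ∑ |u_n|²`, is integrable and
`K ∫ ρ ^ (1 + 2 / d) ≤ ∑ ∫ |∇ u_n|²`. -/
def AdmissibleOdd {d : ℕ} (S : Finset (Fin d)) (K : ℝ) : Prop :=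
  ∀ (N : ℕ) (u : Fin N → (Fin d → ℝ) → ℂ) (g : Fin N → Fin d → (Fin d → ℝ) → ℂ),
    (∀ n, IsSobolev (u n) (g n)) →
    (∀ n m, ∫ x, (starRingEnd ℂ) (u n x) * u m x = if n = m then 1 else 0) →
    (∀ n, ∀ᵐ x, u n (flip S x) = - u n x) →
    Integrable (fun x => (∑ n, ‖u n x‖ ^ 2) ^ (1 + 2 / (d : ℝ))) ∧
    K * ∫ x, (∑ n, ‖u n x‖ ^ 2) ^ (1 + 2 / (d : ℝ)) ≤ ∑ n, ∑ k, ∫ x, ‖g n k x‖ ^ 2

/-- The semiclassical constant `d / (d + 2) * (2π)² / ω_d ^ (2 / d)`. -/
noncomputable def Kcl (d : ℕ) : ℝ :=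
  d / (d + 2) * ((2 * Real.pi) ^ 2 /
    (volume (Metric.ball (0 : EuclideanSpace ℝ (Fin d)) 1)).toReal ^ ((2 : ℝ) / d))

/-- The gain `((1 + s) ^ (1 + 2 / d) + (1 - s) ^ (1 + 2 / d)) / 2`. -/
noncomputable def gain (d : ℕ) (s : ℝ) : ℝ :=
  ((1 + s) ^ (1 + 2 / (d : ℝ)) + (1 - s) ^ (1 + 2 / (d : ℝ))) / 2

/-- The cost `1 + 4 (m - 1) b / m ^ 2`. -/
noncomputable def cost (m : ℕ) (b : ℝ) : ℝ := 1 + 4 * ((m : ℝ) - 1) * b / (m : ℝ) ^ 2

/-- **The kinetic energy inequality for odd orthonormal systems.** Let `S` be a set of `m`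
coordinates of `ℝ^d`. For the orthonormal systems which are odd in the coordinates of `S` the
inequality holds with the constant `(3/4) ^ (1/d) · gain · cost ^ (-m/d) · K_d^cl`. This constant
is larger than `(3/4 · exp (1/m²)) ^ (1/d) K_d^cl` for `b = 1 / (2 m)`, `m ≥ 2`; for `m = 2, 3` in
all dimensions, and for `m = 4` in the dimensions up to `11`, the inequality holds with the
semiclassical constant, even with larger constants. -/
theorem result :
    (∀ (d : ℕ) (S : Finset (Fin d)), 0 < S.card → ∀ b : ℝ, 0 < b → b < 1 / 2 →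
      AdmissibleOdd S ((3 / 4) ^ (1 / (d : ℝ)) * gain d (2 * √(b * (1 - b))) *
        cost S.card b ^ (-((S.card : ℝ) / d)) * Kcl d)) ∧
    (∀ (d : ℕ) (S : Finset (Fin d)), 2 ≤ S.card →
      AdmissibleOdd S ((3 / 4 * Real.exp (1 / (S.card : ℝ) ^ 2)) ^ (1 / (d : ℝ)) * Kcl d)) ∧
    (∀ (d : ℕ) (S : Finset (Fin d)), S.card = 2 →
      AdmissibleOdd S ((137 / 100) ^ (1 / (d : ℝ)) * Kcl d)) ∧
    (∀ (d : ℕ) (S : Finset (Fin d)), S.card = 3 →
      AdmissibleOdd S ((107 / 100) ^ (1 / (d : ℝ)) * Kcl d)) ∧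
    (∀ (d : ℕ) (S : Finset (Fin d)), S.card = 4 → d ≤ 11 → AdmissibleOdd S (Kcl d)) ∧
    AdmissibleOdd (Finset.univ : Finset (Fin 2)) ((3 / 2) ^ (1 / (2 : ℝ)) * Kcl 2) ∧
    AdmissibleOdd (Finset.univ : Finset (Fin 3)) ((6 / 5) ^ (1 / (3 : ℝ)) * Kcl 3) ∧
    AdmissibleOdd (Finset.univ : Finset (Fin 4)) ((107 / 100) ^ (1 / (4 : ℝ)) * Kcl 4) := by
  have hK : ∀ d, 0 ≤ Kcl d := fun d => by unfold Kcl; positivity
  have hgen : ∀ (d : ℕ) (S : Finset (Fin d)), 0 < S.card → ∀ b : ℝ, 0 < b → b < 1 / 2 →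
      AdmissibleOdd S ((3 / 4) ^ (1 / (d : ℝ)) * gain d (2 * √(b * (1 - b))) *
        cost S.card b ^ (-((S.card : ℝ) / d)) * Kcl d) := by
    intro d S hS b hb0 hb N u g hu ho hodd
    have hd : 1 ≤ d := by
      obtain ⟨k, -⟩ := Finset.card_pos.1 hS
      exact k.pos
    have h := Pool.Agent.U327.LT.odd_complex d hd S hS hb0 hb N u g
      (fun i => ⟨(hu i).1, (hu i).2, (hu i).3⟩) ho hodd
    refine ⟨h.1, le_trans (le_of_eq ?_) h.2⟩
    unfold gain cost Kcl LTd.Kcl
    ring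
  have hmono : ∀ {d : ℕ} {S : Finset (Fin d)} {K K' : ℝ}, K' ≤ K → AdmissibleOdd S K →
      AdmissibleOdd S K' := by
    intro d S K K' hKK h N u g hu ho hodd
    obtain ⟨h1, h2⟩ := h N u g hu ho hodd
    refine ⟨h1, le_trans (mul_le_mul_of_nonneg_right hKK ?_) h2⟩
    exact integral_nonneg fun x => Real.rpow_nonneg (Finset.sum_nonneg fun i _ => sq_nonneg _) _
  have hcost : ∀ (m : ℕ) (b : ℝ), 1 ≤ m → 0 < b → 0 < cost m b := by
    intro m b hm hb
    unfold cost
    have h1 : (1:ℝ) ≤ m := by exact_mod_cast hm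
    have : 0 ≤ (m:ℝ) - 1 := by linarith
    positivity
  have key : ∀ (d : ℕ) (S : Finset (Fin d)) (b C : ℝ), 0 < S.card → 0 < b → b < 1 / 2 → 0 < C →
      C * cost S.card b ^ S.card ≤
        3 / 4 * Pool.Agent.U327.LT.kap d (2 * √(b * (1 - b))) ^ d →
      AdmissibleOdd S (C ^ (1 / (d : ℝ)) * Kcl d) := by
    intro d S b C hS hb0 hb hC h
    have hd : 1 ≤ d := by
      obtain ⟨k, -⟩ := Finset.card_pos.1 hS
      exact k.pos
    obtain ⟨hs0, hs1⟩ := Pool.Agent.U327.LT.s_bounds hb0 hb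
    refine hmono (mul_le_mul_of_nonneg_right ?_ (hK d)) (hgen d S hS b hb0 hb)
    exact Pool.Agent.U327.LT.const_le hd hC (Pool.Agent.U327.LT.kap_pos d hs0.le hs1)
      (hcost _ _ hS hb0) h
  have hs4 : 2 * √((4 / 13 : ℝ) * (1 - 4 / 13)) = 12 / 13 := by
    have e : (4 / 13 : ℝ) * (1 - 4 / 13) = (6 / 13) ^ 2 := by norm_num
    rw [e, Real.sqrt_sq (by norm_num)]
    norm_num
  have hs9 : 2 * √((9 / 34 : ℝ) * (1 - 9 / 34)) = 15 / 17 := by
    have e : (9 / 34 : ℝ) * (1 - 9 / 34) = (15 / 34) ^ 2 := by norm_num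
    rw [e, Real.sqrt_sq (by norm_num)]
    norm_num
  have hs16 : 2 * √((16 / 41 : ℝ) * (1 - 16 / 41)) = 40 / 41 := by
    have e : (16 / 41 : ℝ) * (1 - 16 / 41) = (20 / 41) ^ 2 := by norm_num
    rw [e, Real.sqrt_sq (by norm_num)]
    norm_num
  have hs49 : 2 * √((49 / 113 : ℝ) * (1 - 49 / 113)) = 112 / 113 := by
    have e : (49 / 113 : ℝ) * (1 - 49 / 113) = (56 / 113) ^ 2 := by norm_num
    rw [e, Real.sqrt_sq (by norm_num)]
    norm_num
  have hcard : ∀ (d : ℕ) (S : Finset (Fin d)), S.card ≤ d := fun d S => by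
    simpa using Finset.card_le_univ S
  refine ⟨hgen, ?_, ?_, ?_, ?_, ?_, ?_, ?_⟩
  · intro d S hS
    have hm : (2:ℝ) ≤ (S.card : ℝ) := by exact_mod_cast hS
    have hd : 1 ≤ d := by have := hcard d S; omega
    refine key d S (1 / (2 * (S.card : ℝ))) _ (by omega) (by positivity) ?_ (by positivity) ?_
    · rw [div_lt_div_iff₀ (by positivity) (by norm_num)]
      linarith
    · exact Pool.Agent.U327.LT.unif hd hS
  · intro d S hS
    have hd : 2 ≤ d := by have := hcard d S; omega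
    refine key d S (49 / 113) _ (by omega) (by norm_num) (by norm_num) (by norm_num) ?_
    rw [hs49, hS]
    have e : cost 2 (49 / 113) = 162 / 113 := by unfold cost; norm_num
    rw [e]
    exact Pool.Agent.U327.LT.num_2 hd
  · intro d S hS
    have hd : 3 ≤ d := by have := hcard d S; omega
    refine key d S (16 / 41) _ (by omega) (by norm_num) (by norm_num) (by norm_num) ?_
    rw [hs16, hS]
    have e : cost 3 (16 / 41) = 497 / 369 := by unfold cost; norm_num
    rw [e]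
    exact Pool.Agent.U327.LT.num_3 hd
  · intro d S hS hd'
    have hd : 4 ≤ d := by have := hcard d S; omega
    have h := key d S (4 / 13) 1 (by omega) (by norm_num) (by norm_num) (by norm_num) (by
      rw [hs4, hS]
      have e : cost 4 (4 / 13) = 16 / 13 := by unfold cost; norm_num
      rw [e]
      exact Pool.Agent.U327.LT.num_4 hd hd')
    rwa [Real.one_rpow, one_mul] at h
  · have h := key 2 Finset.univ (4 / 13) (3 / 2) (by simp) (by norm_num) (by norm_num)
      (by norm_num) (by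
        rw [hs4, Finset.card_univ, Fintype.card_fin]
        have e : cost 2 (4 / 13) = 17 / 13 := by unfold cost; norm_num
        rw [e]
        exact Pool.Agent.U327.LT.num_22)
    exact_mod_cast h
  · have h := key 3 Finset.univ (4 / 13) (6 / 5) (by simp) (by norm_num) (by norm_num)
      (by norm_num) (by
        rw [hs4, Finset.card_univ, Fintype.card_fin]
        have e : cost 3 (4 / 13) = 149 / 117 := by unfold cost; norm_num
        rw [e]
        exact Pool.Agent.U327.LT.num_33)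
    exact_mod_cast h
  · have h := key 4 Finset.univ (9 / 34) (107 / 100) (by simp) (by norm_num) (by norm_num)
      (by norm_num) (by
        rw [hs9, Finset.card_univ, Fintype.card_fin]
        have e : cost 4 (9 / 34) = 163 / 136 := by unfold cost; norm_num
        rw [e]
        exact Pool.Agent.U327.LT.num_44)
    exact_mod_cast h

end Pool.Agent.Results.MP_cfe56d_mp.OddSystems
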