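import Pool.Agent.U615.LT.M
import Pool.Agent.U281.CP.Yng

/-!
# Real parts in violations of the semiclassical Lieb-Thirring kinetic inequality

Let `u_1, …, u_N ∈ H¹(ℝ^d; ℂ)` be orthonormal, `T = ∑ ∫ |∇u_n|²`, `ρ = ∑ |u_n|²`. The inequality
`K ∫ ρ^(1 + 2/d) ≤ T` is proved with `K = (3 / (4 c²))^(1/d) K_d^cl` for every system such that the
real part of no normalized function of the span has more than the mass `c`; so the conjectured
inequality holds if `c ≤ √3 / 2`. The mass of the real part of a normalized `f`, maximized over the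
phase of `f`, is `(1 + |∫ f²|) / 2`; so only the systems whose span is close to a complex conjugate of
one of its functions can violate the inequality. If the span is orthogonal to its complex
conjugate then the constant is `3^(1/d) K_d^cl`; this is the case if all `u_n` are eigenfunctions of
one measure preserving map with eigenvalues `ζ_n` such that `ζ_n ζ_m ≠ 1`. There is a local form:
in violations a fixed proportion of `∫ ρ^(1 + 2/d)` is at points at which the span contains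
a normalized function whose real part has more than the mass `c` in the cube of side `Λ (N / T)^(1/2)`
around the point.

Proof. The real and imaginary parts of the `u_n` are `2 N` real functions, and the Gram matrix of
these real functions is at most `c`; the inequality of the library for real functions with Gram
matrix at most one improves by the factor `c^(-2/d)`.
-/

set_option autoImplicit false

open MeasureTheory

namespace Pool.Agent.Results.MP_cfe56d_mp.RealParts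

/-- The partial derivative `∂_k φ` of a function on `ℝ^d`. -/
noncomputable def pder {d : ℕ} (k : Fin d) (φ : (Fin d → ℝ) → ℝ) (x : Fin d → ℝ) : ℝ :=
  fderiv ℝ φ x (Pi.single k 1)

/-- `u` belongs to the Sobolev space `H¹(ℝ^d; ℂ)` and has the weak partial derivatives `g k`:
`u` and all `g k` are in `L²(ℝ^d)`, and `∫ u ∂_k φ = - ∫ g_k φ` for every real test function
`φ ∈ C_c^∞(ℝ^d)`. -/
structure IsSobolev {d : ℕ} (u : (Fin d → ℝ) → ℂ) (g : Fin d → (Fin d → ℝ) → ℂ) : Prop where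
  memLp : MemLp u 2 volume
  memLp_deriv : ∀ k, MemLp (g k) 2 volume
  weak : ∀ k (φ : (Fin d → ℝ) → ℝ), ContDiff ℝ (⊤ : ℕ∞) φ → HasCompactSupport φ →
    ∫ x, u x * (pder k φ x : ℂ) = - ∫ x, g k x * (φ x : ℂ)

/-- `u_1, …, u_N ∈ H¹(ℝ^d; ℂ)`, with the weak derivatives `g n k`, are orthonormal in `L²`. -/
structure System {d N : ℕ} (u : Fin N → (Fin d → ℝ) → ℂ) (g : Fin N → Fin d → (Fin d → ℝ) → ℂ) :
    Prop where
  sobolev : ∀ n, IsSobolev (u n) (g n)
  ortho : ∀ n m, ∫ x, (starRingEnd ℂ) (u n x) * u m x = if n = m then 1 else 0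

/-- The density `ρ = ∑ |u_n|²`. -/
noncomputable def density {d N : ℕ} (u : Fin N → (Fin d → ℝ) → ℂ) (x : Fin d → ℝ) : ℝ :=
  ∑ n, ‖u n x‖ ^ 2

/-- The kinetic energy `∑ ∫ |∇ u_n|²`. -/
noncomputable def kinetic {d N : ℕ} (g : Fin N → Fin d → (Fin d → ℝ) → ℂ) : ℝ :=
  ∑ n, ∑ k, ∫ x, ‖g n k x‖ ^ 2

/-- The semiclassical constant `d / (d + 2) * (2π)² / ω_d ^ (2 / d)`. -/
noncomputable def Kcl (d : ℕ) : ℝ :=
  d / (d + 2) * ((2 * Real.pi) ^ 2 /
    (volume (Metric.ball (0 : EuclideanSpace ℝ (Fin d)) 1)).toReal ^ ((2 : ℝ) / d))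

/-- The semiclassical constant `L_{1,d}^cl = 2 / (d + 2) * ω_d / (2π)^d`. -/
noncomputable def Lcl (d : ℕ) : ℝ :=
  2 / ((d : ℝ) + 2) *
    ((volume (Metric.ball (0 : EuclideanSpace ℝ (Fin d)) 1)).toReal / (2 * Real.pi) ^ d)

/-- The real part of a normalized function `f = ∑ a_n u_n`, `∑ |a_n|² = 1`, of the span has at most
the mass `c`: `∫ (Re f)² ≤ c`. -/
def RealMass {d N : ℕ} (u : Fin N → (Fin d → ℝ) → ℂ) (c : ℝ) : Prop :=
  ∀ a : Fin N → ℂ, ∑ n, ‖a n‖ ^ 2 = 1 → ∫ x, (∑ n, a n * u n x).re ^ 2 ≤ c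

/-- `|∫ f²| ≤ s` for every normalized function `f = ∑ a_n u_n`, `∑ |a_n|² = 1`, of the span. -/
def Overlap {d N : ℕ} (u : Fin N → (Fin d → ℝ) → ℂ) (s : ℝ) : Prop :=
  ∀ a : Fin N → ℂ, ∑ n, ‖a n‖ ^ 2 = 1 → ‖∫ x, (∑ n, a n * u n x) ^ 2‖ ≤ s

/-- `∫ ρ^(1 + 2/d)` is finite and `K ∫ ρ^(1 + 2/d) ≤ ∑ ∫ |∇ u_n|²`. -/
def Inequality {d N : ℕ} (u : Fin N → (Fin d → ℝ) → ℂ) (g : Fin N → Fin d → (Fin d → ℝ) → ℂ)
    (K : ℝ) : Prop :=
  Integrable (fun x => density u x ^ (1 + 2 / (d : ℝ))) ∧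
    K * ∫ x, density u x ^ (1 + 2 / (d : ℝ)) ≤ kinetic g

/-- The open cube of side `2 R` with centre `x`. -/
def cube {d : ℕ} (x : Fin d → ℝ) (R : ℝ) : Set (Fin d → ℝ) := {z | ∀ i, |z i - x i| < R}

/-- The points `x` for which the real part of some normalized function `f = ∑ a_n u_n`,
`∑ |a_n|² = 1`, of the span has more than the mass `c` in the cube of side `2 R` with centre `x`. -/
def RealLocalized {d N : ℕ} (u : Fin N → (Fin d → ℝ) → ℂ) (R c : ℝ) : Set (Fin d → ℝ) :=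
  {x | ∃ a : Fin N → ℂ, ∑ n, ‖a n‖ ^ 2 = 1 ∧ c < ∫ z in cube x R, (∑ n, a n * u n z).re ^ 2}

variable {d N : ℕ} {u : Fin N → (Fin d → ℝ) → ℂ} {g : Fin N → Fin d → (Fin d → ℝ) → ℂ}

lemma gram_of {c : ℝ} (h : RealMass u c) (a : Fin N → ℂ) :
    ∫ x, (∑ n, a n * u n x).re ^ 2 ≤ c * ∑ n, ‖a n‖ ^ 2 := by
  by_cases hs : ∑ i, ‖a i‖ ^ 2 = 0
  · have h0 : ∀ i, a i = 0 := by
      intro i
      have h1 := (Finset.sum_eq_zero_iff_of_nonneg (fun i _ => by positivity)).1 hs i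
        (Finset.mem_univ i)
      exact norm_eq_zero.1 (pow_eq_zero_iff two_ne_zero |>.1 h1)
    simp [h0]
  · have hs0 : 0 < ∑ i, ‖a i‖ ^ 2 :=
      lt_of_le_of_ne (Finset.sum_nonneg fun i _ => by positivity) (Ne.symm hs)
    set s : ℝ := ∑ i, ‖a i‖ ^ 2 with hsd
    have hsc : √(s⁻¹) ^ 2 = s⁻¹ := Real.sq_sqrt (inv_pos.2 hs0).le
    have hn : ∀ z : ℂ, ‖(√(s⁻¹) : ℂ) * z‖ ^ 2 = s⁻¹ * ‖z‖ ^ 2 := by
      intro z
      rw [norm_mul, Complex.norm_real, Real.norm_eq_abs, mul_pow, sq_abs, hsc]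
    have h1 := h (fun i => ((√(s⁻¹) : ℝ) : ℂ) * a i) (by
      simp only [hn, ← Finset.mul_sum]
      exact inv_mul_cancel₀ hs0.ne')
    have h2 : ∀ z, (∑ i, ((√(s⁻¹) : ℝ) : ℂ) * a i * u i z).re ^ 2 =
        s⁻¹ * (∑ i, a i * u i z).re ^ 2 := by
      intro z
      have h3 : ∑ i, ((√(s⁻¹) : ℝ) : ℂ) * a i * u i z =
          ((√(s⁻¹) : ℝ) : ℂ) * ∑ i, a i * u i z := by
        rw [Finset.mul_sum]
        exact Finset.sum_congr rfl fun i _ => by ring
      rw [h3, Complex.re_ofReal_mul, mul_pow, hsc]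
    simp only [h2] at h1
    rw [integral_const_mul] at h1
    have h3 := mul_le_mul_of_nonneg_left h1 hs0.le
    rw [← mul_assoc, mul_inv_cancel₀ hs0.ne', one_mul] at h3
    linarith

lemma kcl_nonneg (d : ℕ) : 0 ≤ Kcl d := by
  unfold Kcl
  positivity

lemma mono {K K' : ℝ} (hK : K' ≤ K) (h : Inequality u g K) : Inequality u g K' := by
  refine ⟨h.1, le_trans (mul_le_mul_of_nonneg_right hK ?_) h.2⟩
  exact integral_nonneg fun x => Real.rpow_nonneg (Finset.sum_nonneg fun _ _ => by positivity) _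

lemma global (hd : 1 ≤ d) (hS : System u g) {c : ℝ} (hc : 0 < c) (h : RealMass u c) :
    Inequality u g ((3 / 4 / c ^ 2) ^ (1 / (d : ℝ)) * Kcl d) := by
  have hu' : ∀ n, LTd.WGradC (u n) (g n) := fun n =>
    ⟨(hS.sobolev n).1, (hS.sobolev n).2, (hS.sobolev n).3⟩
  have h1 := Pool.Agent.U615.LT.glob hd u g hu' c hc
    (gram_of h)
  refine ⟨h1.1, le_trans (le_of_eq ?_) h1.2⟩
  have e : (3 / 4 / c ^ 2 : ℝ) ^ (1 / (d : ℝ)) =
      c ^ (-(2 / (d : ℝ))) * (3 / 4 : ℝ) ^ (1 / (d : ℝ)) := by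
    rw [div_eq_mul_inv, Real.mul_rpow (by norm_num) (by positivity), mul_comm]
    congr 1
    rw [← Real.rpow_natCast c 2, ← Real.rpow_neg hc.le, ← Real.rpow_mul hc.le]
    congr 1
    push_cast
    ring
  rw [e]
  show _ = c ^ (-(2 / (d : ℝ))) * ((3 / 4 : ℝ) ^ (1 / (d : ℝ)) * LTd.Kcl d) * _
  have e2 : LTd.Kcl d = Kcl d := rfl
  rw [e2]
  have e3 : (∫ x, density u x ^ (1 + 2 / (d : ℝ))) =
      ∫ x, Pool.Agent.R282.KO.rho u x ^ (1 + 2 / (d : ℝ)) := rfl
  rw [e3]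
  ring

lemma mass_of_overlap (hS : System u g) {s : ℝ} (h : Overlap u s) : RealMass u ((1 + s) / 2) := by
  intro a ha
  have hu : ∀ i, MemLp (u i) 2 volume := fun i => (hS.sobolev i).memLp
  have hf : MemLp (fun x => ∑ i, a i * u i x) 2 volume := Pool.Agent.N96.LF.sum_memLp u hu a
  have hn : ∫ x, ‖∑ i, a i * u i x‖ ^ 2 ≤ 1 := by
    have := Pool.Agent.R282.KO.sub_of_ortho u hu hS.ortho a
    rwa [ha] at this
  have hI : Integrable (fun x => (∑ i, a i * u i x) ^ 2) := by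
    have := hf.integrable_mul hf
    refine this.congr (Filter.Eventually.of_forall fun x => ?_)
    simp only [Pi.mul_apply, sq]
  have hN : Integrable (fun x => ‖∑ i, a i * u i x‖ ^ 2) := hf.integrable_norm_pow two_ne_zero
  have e : ∀ x, (∑ i, a i * u i x).re ^ 2 =
      (1 / 2) * (‖∑ i, a i * u i x‖ ^ 2 + ((∑ i, a i * u i x) ^ 2).re) := by
    intro x
    set z := ∑ i, a i * u i x
    rw [Complex.sq_norm, Complex.normSq_apply, sq z, Complex.mul_re]
    ring
  simp only [e]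
  have hIr : Integrable (fun x => ((∑ i, a i * u i x) ^ 2).re) := hI.re
  rw [integral_const_mul, integral_add hN hIr]
  have h2 : ∫ x, ((∑ i, a i * u i x) ^ 2).re ≤ s := by
    have h3 : ∫ x, ((∑ i, a i * u i x) ^ 2).re = (∫ x, (∑ i, a i * u i x) ^ 2).re := by
      have := integral_re hI
      simpa using this
    rw [h3]
    exact (Complex.re_le_norm _).trans (h a ha)
  linarith

lemma overlap_zero (hS : System u g) (h : ∀ n m, ∫ x, u n x * u m x = 0) : Overlap u 0 := by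
  intro a _
  have hu : ∀ i, MemLp (u i) 2 volume := fun i => (hS.sobolev i).memLp
  have hI : ∀ i j, Integrable (fun x => u i x * u j x) := fun i j => (hu i).integrable_mul (hu j)
  have e : ∀ x, (∑ i, a i * u i x) ^ 2 = ∑ i, ∑ j, (a i * a j) * (u i x * u j x) := by
    intro x
    rw [sq, Finset.sum_mul_sum]
    exact Finset.sum_congr rfl fun i _ => Finset.sum_congr rfl fun j _ => by ring
  simp only [e]
  rw [integral_finsetSum _ fun i _ => integrable_finsetSum _ fun j _ => (hI i j).const_mul _]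
  have : ∀ i, ∫ x, ∑ j, (a i * a j) * (u i x * u j x) = 0 := by
    intro i
    rw [integral_finsetSum _ fun j _ => (hI i j).const_mul _]
    simp only [integral_const_mul, h, mul_zero, Finset.sum_const_zero]
  simp [this]

lemma sym_zero (σ : (Fin d → ℝ) ≃ᵐ (Fin d → ℝ)) (hσ : MeasurePreserving σ volume volume)
    (ζ : Fin N → ℂ) (hζ : ∀ n m, ζ n * ζ m ≠ 1) (h : ∀ n, ∀ᵐ x, u n (σ x) = ζ n * u n x)
    (n m : Fin N) : ∫ x, u n x * u m x = 0 := by
  have h1 : ∫ x, u n (σ x) * u m (σ x) = ∫ x, u n x * u m x :=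
    hσ.integral_comp' (fun x => u n x * u m x)
  have h2 : ∫ x, u n (σ x) * u m (σ x) = (ζ n * ζ m) * ∫ x, u n x * u m x := by
    rw [← integral_const_mul]
    refine integral_congr_ae ?_
    filter_upwards [h n, h m] with x hx hy
    rw [hx, hy]
    ring
  have h3 : (1 - ζ n * ζ m) * ∫ x, u n x * u m x = 0 := by
    have := h1.symm.trans h2
    linear_combination this
  rcases mul_eq_zero.1 h3 with h4 | h4
  · exact absurd (sub_eq_zero.1 h4).symm (hζ n m)
  · exact h4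

lemma kcl_pos (hd : 0 < d) : 0 < Kcl d := by
  have hd' : (0 : ℝ) < d := by exact_mod_cast hd
  have hw0 : 0 < (volume (Metric.ball (0 : EuclideanSpace ℝ (Fin d)) 1)).toReal :=
    ENNReal.toReal_pos (Metric.measure_ball_pos _ _ one_pos).ne' measure_ball_lt_top.ne
  have hπ := Real.pi_pos
  unfold Kcl
  positivity

lemma Ly_eq (hd : 0 < d) {c : ℝ} (hc : 0 < c) :
    Pool.Agent.U281.CP.Ly ((3 / 4 / c ^ 2) ^ (1 / (d : ℝ)) * Kcl d) d = 2 * c / √3 * Lcl d := by
  have hd' : (0 : ℝ) < d := by exact_mod_cast hd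
  obtain ⟨w, hw⟩ : ∃ w : ℝ, w = (volume (Metric.ball (0 : EuclideanSpace ℝ (Fin d)) 1)).toReal :=
    ⟨_, rfl⟩
  have hw0 : 0 < w := by
    rw [hw]
    exact ENNReal.toReal_pos (Metric.measure_ball_pos _ _ one_pos).ne' measure_ball_lt_top.ne
  have hπ := Real.pi_pos
  unfold Pool.Agent.U281.CP.Ly Kcl Lcl
  rw [← hw]
  obtain ⟨m, hm⟩ : ∃ m : ℝ, m = (3 / 4 / c ^ 2) ^ (1 / (d : ℝ)) := ⟨_, rfl⟩
  have hm0 : 0 < m := by rw [hm]; positivity
  rw [← hm]
  have h1 : (d : ℝ) / (((d : ℝ) + 2) *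
      (m * (d / (d + 2) * ((2 * Real.pi) ^ 2 / w ^ (2 / (d : ℝ)))))) =
      m⁻¹ * (w ^ (2 / (d : ℝ)) / (2 * Real.pi) ^ 2) := by
    have : 0 < w ^ (2 / (d : ℝ)) := by positivity
    field_simp
  rw [h1, Real.mul_rpow (by positivity) (by positivity),
    Real.div_rpow (by positivity) (by positivity), ← Real.rpow_mul hw0.le]
  have h2 : 2 / (d : ℝ) * ((d : ℝ) / 2) = 1 := by field_simp
  have h3 : ((2 * Real.pi) ^ 2 : ℝ) ^ ((d : ℝ) / 2) = (2 * Real.pi) ^ d := by
    rw [← Real.rpow_natCast (2 * Real.pi) 2, ← Real.rpow_mul (by positivity),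
      ← Real.rpow_natCast (2 * Real.pi) d]
    congr 1
    push_cast
    ring
  have h4 : (m⁻¹ : ℝ) ^ ((d : ℝ) / 2) = 2 * c / √3 := by
    rw [hm, ← Real.inv_rpow (by positivity), ← Real.rpow_mul (by positivity)]
    have e : 1 / (d : ℝ) * ((d : ℝ) / 2) = 1 / 2 := by field_simp
    rw [e, ← Real.sqrt_eq_rpow]
    have e2 : ((3 / 4 / c ^ 2)⁻¹ : ℝ) = (2 * c) ^ 2 / 3 := by
      field_simp
      norm_num
    rw [e2, Real.sqrt_div (by positivity), Real.sqrt_sq (by positivity)]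
  rw [h2, Real.rpow_one, h3, h4]
  ring

lemma dual (hd : 1 ≤ d) (hS : System u g) {c : ℝ} (hc : 0 < c) (h : RealMass u c)
    {V : (Fin d → ℝ) → ℝ} (hV : Measurable V) (hV0 : ∀ x, 0 ≤ V x)
    (hVi : Integrable (fun x => V x ^ (1 + (d : ℝ) / 2))) :
    Integrable (fun x => V x * density u x) ∧
      -(2 * c / √3 * Lcl d * ∫ x, V x ^ (1 + (d : ℝ) / 2)) ≤
        kinetic g - ∫ x, V x * density u x := by
  obtain ⟨h1, h2⟩ := global hd hS hc h
  obtain ⟨K, hK⟩ : ∃ K : ℝ, K = (3 / 4 / c ^ 2) ^ (1 / (d : ℝ)) * Kcl d := ⟨_, rfl⟩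
  have hK0 : 0 < K := by
    rw [hK]
    exact mul_pos (by positivity) (kcl_pos (by omega))
  rw [← Ly_eq (by omega) hc, ← hK]
  rw [← hK] at h2
  have hρ0 : ∀ x, 0 ≤ density u x := fun x => Finset.sum_nonneg fun _ _ => by positivity
  have hy : ∀ x, V x * density u x ≤ K * density u x ^ (1 + 2 / (d : ℝ)) +
      Pool.Agent.U281.CP.Ly K d * V x ^ (1 + (d : ℝ) / 2) := fun x =>
    Pool.Agent.U281.CP.young hK0 (by omega) (hρ0 x) (hV0 x)
  have hD : AEStronglyMeasurable (density u) volume := by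
    have : ∀ n, AEStronglyMeasurable (fun x => ‖u n x‖ ^ 2) (volume : Measure (Fin d → ℝ)) :=
      fun n => ((hS.sobolev n).memLp.1.norm.pow 2)
    exact Finset.aestronglyMeasurable_fun_sum _ fun n _ => this n
  have hsum := (h1.const_mul K).add (hVi.const_mul (Pool.Agent.U281.CP.Ly K d))
  have hint : Integrable (fun x => V x * density u x) := by
    refine hsum.mono' (hV.aestronglyMeasurable.mul hD) (Filter.Eventually.of_forall fun x => ?_)
    rw [Real.norm_of_nonneg (mul_nonneg (hV0 x) (hρ0 x))]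
    exact hy x
  refine ⟨hint, ?_⟩
  have h3 := integral_mono hint hsum hy
  have h4 : ∫ x, ((fun x => K * density u x ^ (1 + 2 / (d : ℝ))) + fun x =>
      Pool.Agent.U281.CP.Ly K d * V x ^ (1 + (d : ℝ) / 2)) x =
      K * (∫ x, density u x ^ (1 + 2 / (d : ℝ))) +
        Pool.Agent.U281.CP.Ly K d * ∫ x, V x ^ (1 + (d : ℝ) / 2) := by
    rw [← integral_const_mul, ← integral_const_mul]
    exact integral_add (h1.const_mul K) (hVi.const_mul (Pool.Agent.U281.CP.Ly K d))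
  rw [h4] at h3
  linarith

/-- **Real parts in violations of the semiclassical kinetic inequality.** -/
theorem result (d : ℕ) (hd : 1 ≤ d) :
    -- the inequality and the mass of the real parts
    (∀ (N : ℕ) (u : Fin N → (Fin d → ℝ) → ℂ) (g : Fin N → Fin d → (Fin d → ℝ) → ℂ), System u g →
      Integrable (fun x => density u x ^ (1 + 2 / (d : ℝ))) ∧
      (∀ c : ℝ, 0 < c → RealMass u c → Inequality u g ((3 / 4 / c ^ 2) ^ (1 / (d : ℝ)) * Kcl d) ∧
        ∀ V : (Fin d → ℝ) → ℝ, Measurable V → (∀ x, 0 ≤ V x) →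
          Integrable (fun x => V x ^ (1 + (d : ℝ) / 2)) →
          Integrable (fun x => V x * density u x) ∧
          -(2 * c / √3 * Lcl d * ∫ x, V x ^ (1 + (d : ℝ) / 2)) ≤
            kinetic g - ∫ x, V x * density u x) ∧
      (RealMass u (√3 / 2) → Inequality u g (Kcl d)) ∧
      (∀ s : ℝ, 0 ≤ s → Overlap u s →
        Inequality u g ((3 / (1 + s) ^ 2) ^ (1 / (d : ℝ)) * Kcl d)) ∧
      (Overlap u (√3 - 1) → Inequality u g (Kcl d)) ∧
      ((∀ n m, ∫ x, u n x * u m x = 0) → Inequality u g (3 ^ (1 / (d : ℝ)) * Kcl d)) ∧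
      (∀ (σ : (Fin d → ℝ) ≃ᵐ (Fin d → ℝ)) (ζ : Fin N → ℂ), MeasurePreserving σ volume volume →
        (∀ n m, ζ n * ζ m ≠ 1) → (∀ n, ∀ᵐ x, u n (σ x) = ζ n * u n x) →
        Inequality u g (3 ^ (1 / (d : ℝ)) * Kcl d))) ∧
    -- the local form
    (∀ c τ α : ℝ, 0 < c → c < 1 → 0 < τ → c ^ 2 * τ ^ d < 3 / 4 →
      α * (c ^ (-(2 / (d : ℝ))) - 1) < c ^ (-(2 / (d : ℝ))) - τ * (4 / 3) ^ (1 / (d : ℝ)) →
      ∃ Λ : ℝ, 0 < Λ ∧ ∀ (N : ℕ) (u : Fin N → (Fin d → ℝ) → ℂ)
        (g : Fin N → Fin d → (Fin d → ℝ) → ℂ), System u g →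
        ∀ R : ℝ, 0 < R → Λ * N ≤ R ^ 2 * kinetic g →
          MeasurableSet (RealLocalized u R c) ∧
          (kinetic g < τ * Kcl d * ∫ x, density u x ^ (1 + 2 / (d : ℝ)) →
            α * ∫ x, density u x ^ (1 + 2 / (d : ℝ)) ≤
              ∫ x in RealLocalized u R c, density u x ^ (1 + 2 / (d : ℝ))) ∧
          (RealLocalized u R c = ∅ → Inequality u g (τ * Kcl d))) := by
  refine ⟨fun N u g hS => ?_, fun c τ α hc hc1 hτ hcτ hα => ?_⟩
  · have h3 : (√3 : ℝ) ^ 2 = 3 := Real.sq_sqrt (by norm_num)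
    have h3p : (0 : ℝ) < √3 := by positivity
    have hov : ∀ s : ℝ, 0 ≤ s → Overlap u s →
        Inequality u g ((3 / (1 + s) ^ 2) ^ (1 / (d : ℝ)) * Kcl d) := by
      intro s hs h
      have h1 := global hd hS (c := (1 + s) / 2) (by linarith) (mass_of_overlap hS h)
      have e : (3 / 4 / ((1 + s) / 2) ^ 2 : ℝ) = 3 / (1 + s) ^ 2 := by
        have : (1 + s : ℝ) ≠ 0 := by positivity
        field_simp
        ring
      rwa [e] at h1
    have hz : (∀ n m, ∫ x, u n x * u m x = 0) → Inequality u g (3 ^ (1 / (d : ℝ)) * Kcl d) := by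
      intro h
      have h1 := hov 0 le_rfl (overlap_zero hS h)
      have e : (3 / (1 + 0) ^ 2 : ℝ) = 3 := by norm_num
      rwa [e] at h1
    have hint : Integrable (fun x => density u x ^ (1 + 2 / (d : ℝ))) :=
      (Pool.Agent.R282.KO.sub_thm d hd N u g (fun n =>
        ⟨(hS.sobolev n).1, (hS.sobolev n).2, (hS.sobolev n).3⟩)
        (Pool.Agent.R282.KO.sub_of_ortho u (fun n => (hS.sobolev n).1) hS.ortho)).1
    refine ⟨hint, fun c hc h => ⟨global hd hS hc h, fun V hV hV0 hVi => dual hd hS hc h hV hV0 hVi⟩,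
      fun h => ?_, hov, fun h => ?_, hz, fun σ ζ hσ hζ h => hz (sym_zero σ hσ ζ hζ h)⟩
    · have h1 := global hd hS (c := √3 / 2) (by positivity) h
      have e : (3 / 4 / (√3 / 2) ^ 2 : ℝ) = 1 := by
        rw [div_pow, h3]
        norm_num
      rwa [e, Real.one_rpow, one_mul] at h1
    · have hs : (0 : ℝ) ≤ √3 - 1 := by
        have : (1 : ℝ) ≤ √3 := Real.one_le_sqrt.2 (by norm_num)
        linarith
      have h1 := hov (√3 - 1) hs h
      have e : (3 / (1 + (√3 - 1)) ^ 2 : ℝ) = 1 := by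
        have : (1 + (√3 - 1) : ℝ) = √3 := by ring
        rw [this, h3]
        norm_num
      rwa [e, Real.one_rpow, one_mul] at h1
  · obtain ⟨Λ, hΛ, h⟩ := Pool.Agent.U615.LT.main_re hd c τ α hc hc1 hτ hcτ hα
    refine ⟨Λ, hΛ, fun N u g hS R hR hT => ?_⟩
    have hu' : ∀ n, LTd.WGradC (u n) (g n) := fun n =>
      ⟨(hS.sobolev n).1, (hS.sobolev n).2, (hS.sobolev n).3⟩
    have e : RealLocalized u R c = Pool.Agent.U615.LT.ConcRe u R c := by
      have e1 : ∀ x : Fin d → ℝ, cube x R = Metric.ball x R := by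
        intro x
        ext z
        rw [Metric.mem_ball, dist_pi_lt_iff hR]
        rfl
      unfold RealLocalized Pool.Agent.U615.LT.ConcRe
      simp only [e1]
    have h1 := h N u g hu' hS.ortho R hR hT
    rw [e]
    exact ⟨(Pool.Agent.U615.LT.concRe_isOpen u (fun n => (hu' n).f2) R c hR).measurableSet,
      h1.2.1, fun hemp => ⟨h1.1, h1.2.2 hemp⟩⟩

end Pool.Agent.Results.MP_cfe56d_mp.RealParts
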